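import Pool.Agent.H52.FU.Carrier

/-!
# Homotopy of the identity and of a permutation of coordinates along carriers
-/

set_option autoImplicit false

namespace Pool.Agent.H52.FU

open Pool.Agent.H47.ST

variable {ι : Type*} [Fintype ι] {F : Type*} [Field F]

/-- A chain map with carriers `lo`, `hi`. -/
structure ChM (lo hi : (ι → ℤ) → ι → ℤ) (L : AddSubgroup (ι → ℤ))
    (c : Finset (ι → ℤ) → Ch ι F) : Prop where
  zero : c ∅ = Finsupp.single ∅ 1
  map : ∀ σ, Simp σ → bd (c σ) = li c (bd1 F σ)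
  box : ∀ σ, Simp σ → σ.Nonempty → c σ ∈ su F (Bx (lof lo σ) (hif hi σ) σ.card)
  inv : ∀ l ∈ L, ∀ σ, c (tr l σ) = tc l (c σ)

theorem exists_ChM {lo hi : (ι → ℤ) → ι → ℤ} (hle : ∀ v, lo v ≤ hi v) {L : AddSubgroup (ι → ℤ)}
    (hlo : ∀ l ∈ L, ∀ v, lo (v + l) = lo v + l) (hhi : ∀ l ∈ L, ∀ v, hi (v + l) = hi v + l) :
    ∃ c : Finset (ι → ℤ) → Ch ι F, ChM lo hi L c := by
  have htr : ∀ l : ι → ℤ, tr l (∅ : Finset (ι → ℤ)) = ∅ := fun l => by
    rw [← Finset.card_eq_zero, card_tr', Finset.card_empty]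
  obtain ⟨c, h1, h2, h3, h4⟩ := rec_solve (F := F) hle hlo hhi 1 0 (fun _ => 0)
    (Finsupp.single ∅ 1) (single_mem_su ⟨rfl, rfl⟩ 1)
    (by rw [bd_single, bd1, Finset.sum_empty, smul_zero])
    (fun _ _ _ _ _ => Submodule.zero_mem _)
    (fun σ _ => by
      rw [map_zero, zero_add, one_smul, li_bd1]
      exact Finset.sum_eq_zero fun v _ => smul_zero _)
    (fun l _ σ => (map_zero _).symm) (fun l _ => by rw [tc_single, htr])
  exact ⟨c, h1, fun σ hσ => by rw [h2 σ hσ, zero_add, one_smul], h3, h4⟩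

omit [Fintype ι] in
/-- action of a permutation of the coordinates -/
def sh (e : Equiv.Perm ι) (σ : Finset (ι → ℤ)) : Finset (ι → ℤ) :=
  σ.map ⟨fun v => v ∘ e, fun v w h => by
    funext i
    have h1 := congrFun h (e.symm i)
    simpa using h1⟩

omit [Fintype ι] in
theorem mem_sh {e : Equiv.Perm ι} {σ : Finset (ι → ℤ)} {w : ι → ℤ} :
    w ∈ sh e σ ↔ ∃ v ∈ σ, v ∘ e = w := Finset.mem_map

theorem sh_eq_image (e : Equiv.Perm ι) (σ : Finset (ι → ℤ)) : sh e σ = σ.image (fun v => v ∘ e) :=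
  Finset.map_eq_image _ _

omit [Fintype ι] in
theorem comp_le {e : Equiv.Perm ι} {v w : ι → ℤ} : v ∘ e ≤ w ∘ e ↔ v ≤ w := by
  constructor
  · intro h i
    have h1 := h (e.symm i)
    simpa using h1
  · intro h i
    exact h (e i)

omit [Fintype ι] in
theorem sh_simp {e : Equiv.Perm ι} {σ : Finset (ι → ℤ)} (h : Simp σ) : Simp (sh e σ) := by
  intro v hv w hw
  obtain ⟨v', hv', rfl⟩ := mem_sh.1 hv
  obtain ⟨w', hw', rfl⟩ := mem_sh.1 hw
  rcases h v' hv' w' hw' with h1 | h1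
  · exact Or.inl ⟨comp_le.2 h1.1, fun i => h1.2 (e i)⟩
  · exact Or.inr ⟨comp_le.2 h1.1, fun i => h1.2 (e i)⟩

omit [Fintype ι] in
theorem comp_lt {e : Equiv.Perm ι} {v w : ι → ℤ} : v ∘ e < w ∘ e ↔ v < w := by
  rw [lt_iff_le_not_ge, lt_iff_le_not_ge, comp_le, comp_le]

omit [Fintype ι] in
theorem sh_sgn {e : Equiv.Perm ι} {σ : Finset (ι → ℤ)} (v : ι → ℤ) :
    sgn F (sh e σ) (v ∘ e) = sgn F σ v := by
  classical
  have h : (sh e σ).filter (fun w => w < v ∘ e) = sh e (σ.filter (fun w => w < v)) := by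
    ext w
    simp only [Finset.mem_filter, mem_sh]
    constructor
    · rintro ⟨⟨u, hu, rfl⟩, h⟩
      exact ⟨u, ⟨hu, comp_lt.1 h⟩, rfl⟩
    · rintro ⟨u, ⟨hu, h⟩, rfl⟩
      exact ⟨⟨u, hu, rfl⟩, comp_lt.2 h⟩
  have h' : ((sh e σ).filter (fun w => w < v ∘ e)).card = (σ.filter (fun w => w < v)).card := by
    rw [h]
    exact Finset.card_map _
  unfold sgn
  rw [h']

theorem sh_erase {e : Equiv.Perm ι} {σ : Finset (ι → ℤ)} (v : ι → ℤ) :
    (sh e σ).erase (v ∘ e) = sh e (σ.erase v) := by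
  ext w
  simp only [Finset.mem_erase, mem_sh]
  constructor
  · rintro ⟨h, u, hu, rfl⟩
    exact ⟨u, ⟨fun h' => h (by rw [h']), hu⟩, rfl⟩
  · rintro ⟨u, ⟨h, hu⟩, rfl⟩
    refine ⟨fun h' => h ?_, u, hu, rfl⟩
    exact le_antisymm (comp_le.1 h'.le) (comp_le.1 h'.ge)

omit [Fintype ι] in
theorem sh_one (σ : Finset (ι → ℤ)) : sh 1 σ = σ := by
  ext w
  rw [mem_sh]
  exact ⟨fun ⟨v, hv, h⟩ => h ▸ hv, fun h => ⟨w, h, rfl⟩⟩

omit [Fintype ι] in
theorem sh_tr {e : Equiv.Perm ι} {l : ι → ℤ} (hl : l ∘ e = l) (σ : Finset (ι → ℤ)) :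
    sh e (tr l σ) = tr l (sh e σ) := by
  have h0 : ∀ v : ι → ℤ, (v + l) ∘ e = v ∘ e + l := by
    intro v
    conv_rhs => rw [← hl]
    rfl
  ext w
  rw [mem_sh, CellA_tr_mem]
  constructor
  · rintro ⟨v, hv, rfl⟩
    obtain ⟨u, hu, rfl⟩ := CellA_tr_mem.1 hv
    exact ⟨u ∘ e, mem_sh.2 ⟨u, hu, rfl⟩, (h0 u).symm⟩
  · rintro ⟨v, hv, rfl⟩
    obtain ⟨u, hu, rfl⟩ := mem_sh.1 hv
    exact ⟨u + l, CellA_tr_mem.2 ⟨u, hu, rfl⟩, h0 u⟩

/-- The chain map of a permutation of the coordinates. -/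
theorem ChM_sh {lo hi : (ι → ℤ) → ι → ℤ} {L : AddSubgroup (ι → ℤ)} (e : Equiv.Perm ι)
    (hL : ∀ l ∈ L, l ∘ e = l) (hlo : ∀ v, lo v ≤ v ∘ e) (hhi : ∀ v, v ∘ e ≤ hi v) :
    ChM (F := F) lo hi L (fun σ => Finsupp.single (sh e σ) 1) := by
  refine ⟨?_, fun σ hσ => ?_, fun σ hσ hne => ?_, fun l hl σ => ?_⟩
  · rw [Finsupp.single_left_inj one_ne_zero]
    rfl
  · rw [bd_single, one_smul, li_bd1, bd1]
    conv_lhs => rw [sh]
    rw [Finset.sum_map]
    refine Finset.sum_congr rfl fun v _ => ?_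
    change Finsupp.single ((sh e σ).erase (v ∘ e)) (sgn F (sh e σ) (v ∘ e)) = _
    rw [sh_sgn, sh_erase, Finsupp.smul_single, smul_eq_mul, mul_one]
  · refine single_mem_su ⟨sh_simp hσ, fun w hw => ?_, Finset.card_map _⟩ 1
    obtain ⟨v, hv, rfl⟩ := mem_sh.1 hw
    exact ⟨(lof_le hv).trans (hlo v), (hhi v).trans (le_hif hv)⟩
  · rw [sh_tr (hL l hl), tc_single]

theorem ChM.mono {lo hi lo' hi' : (ι → ℤ) → ι → ℤ} {L : AddSubgroup (ι → ℤ)}
    {c : Finset (ι → ℤ) → Ch ι F} (h : ChM lo hi L c) (hlo : ∀ v, lo' v ≤ lo v)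
    (hhi : ∀ v, hi v ≤ hi' v) : ChM lo' hi' L c := by
  refine ⟨h.zero, h.map, fun σ hσ hne => su_mono ?_ (h.box σ hσ hne), h.inv⟩
  rintro τ ⟨h1, h2, h3⟩
  exact ⟨h1, fun w hw => ⟨(le_lof hne fun v hv => (lof_le hv).trans (hlo v)).trans (h2 w hw).1,
    (h2 w hw).2.trans (hif_le hne fun v hv => (hhi v).trans (le_hif hv))⟩, h3⟩

/-- Two chain maps with the same carriers are homotopic. -/
theorem ChM.homotopy {lo hi : (ι → ℤ) → ι → ℤ} (hle : ∀ v, lo v ≤ hi v)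
    {L : AddSubgroup (ι → ℤ)} (hlo : ∀ l ∈ L, ∀ v, lo (v + l) = lo v + l)
    (hhi : ∀ l ∈ L, ∀ v, hi (v + l) = hi v + l) {c c' : Finset (ι → ℤ) → Ch ι F}
    (h : ChM lo hi L c) (h' : ChM lo hi L c') :
    ∃ k : Finset (ι → ℤ) → Ch ι F, k ∅ = 0 ∧
      (∀ σ, Simp σ → bd (k σ) + li k (bd1 F σ) = c σ - c' σ) ∧
      (∀ σ, Simp σ → σ.Nonempty → k σ ∈ su F (Bx (lof lo σ) (hif hi σ) (σ.card + 1))) ∧
      ∀ l ∈ L, ∀ σ, k (tr l σ) = tc l (k σ) := by
  have hli : ∀ σ : Finset (ι → ℤ), li (fun σ => c σ - c' σ) (bd1 F σ) =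
      li c (bd1 F σ) - li c' (bd1 F σ) := by
    intro σ
    rw [li_bd1, li_bd1, li_bd1, ← Finset.sum_sub_distrib]
    exact Finset.sum_congr rfl fun v _ => smul_sub _ _ _
  obtain ⟨k, h1, h2, h3, h4⟩ := rec_solve (F := F) hle hlo hhi (-1) 1 (fun σ => c σ - c' σ) 0
    (Submodule.zero_mem _) (by rw [map_zero, h.zero, h'.zero, sub_self])
    (fun σ hσ hne j hj => by
      rw [← hj]
      exact Submodule.sub_mem _ (h.box σ hσ hne) (h'.box σ hσ hne))
    (fun σ hσ => by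
      rw [hli, map_sub, h.map σ hσ, h'.map σ hσ, neg_one_smul, add_neg_cancel])
    (fun l hl σ => by rw [h.inv l hl, h'.inv l hl, map_sub]) (fun l _ => map_zero _)
  refine ⟨k, h1, fun σ hσ => ?_, h3, h4⟩
  rw [h2 σ hσ, neg_one_smul, neg_add_cancel_right]

/-- The carrier theorem. -/
theorem exists_H (F : Type*) [Field F] (J : ℕ) (hJ : 0 < J) (lo hi : ℕ → (ι → ℤ) → ι → ℤ)
    (hle : ∀ j v, lo j v ≤ hi j v) (e : Equiv.Perm ι) (h0 : ∀ v, lo 0 v = v ∧ hi 0 v = v)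
    (hJe : ∀ v, lo J v = v ∘ e ∧ hi J v = v ∘ e) (L : AddSubgroup (ι → ℤ))
    (hlo : ∀ j, ∀ l ∈ L, ∀ v, lo j (v + l) = lo j v + l)
    (hhi : ∀ j, ∀ l ∈ L, ∀ v, hi j (v + l) = hi j v + l) (hL : ∀ l ∈ L, l ∘ e = l) :
    ∃ H : Co ι F →ₗ[F] Co ι F,
      (∀ (a : Co ι F) (σ : Finset (ι → ℤ)), Simp σ →
        a σ - a (sh e σ) = dd (H a) σ + H (dd a) σ) ∧
      (∀ (a : Co ι F) (σ : Finset (ι → ℤ)), H a σ ≠ 0 → Simp σ ∧ σ.Nonempty ∧
        ∃ ρ, a ρ ≠ 0 ∧ Simp ρ ∧ ρ.card = σ.card + 1 ∧ ∃ j < J, ∀ w ∈ ρ, ∀ i,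
          (∃ v ∈ σ, lo j v i ≤ w i ∨ lo (j + 1) v i ≤ w i) ∧
          (∃ v ∈ σ, w i ≤ hi j v i ∨ w i ≤ hi (j + 1) v i)) ∧
      (∀ l ∈ L, ∀ a : Co ι F, (∀ σ, a (tr l σ) = a σ) → ∀ σ, H a (tr l σ) = H a σ) := by
  classical
  -- the chain maps
  have hc : ∀ j, ∃ c : Finset (ι → ℤ) → Ch ι F, ChM (lo j) (hi j) L c ∧
      (j = 0 → c = fun σ => Finsupp.single σ 1) ∧
      (j = J → c = fun σ => Finsupp.single (sh e σ) 1) := by
    intro j
    by_cases hj0 : j = 0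
    · subst hj0
      have h1 := ChM_sh (F := F) (lo := lo 0) (hi := hi 0) (L := L) 1 (fun l _ => rfl)
        (fun v => (h0 v).1.le) (fun v => (h0 v).2.ge)
      have h2 : (fun σ : Finset (ι → ℤ) => Finsupp.single (sh 1 σ) (1 : F)) =
          fun σ => Finsupp.single σ 1 := by
        funext σ
        rw [sh_one]
      rw [h2] at h1
      exact ⟨_, h1, fun _ => rfl, fun h => absurd h hJ.ne⟩
    · by_cases hjJ : j = J
      · subst hjJ
        exact ⟨_, ChM_sh (F := F) e hL (fun v => (hJe v).1.le) (fun v => (hJe v).2.ge),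
          fun h => absurd h hj0, fun _ => rfl⟩
      · obtain ⟨c, h1⟩ := exists_ChM (F := F) (hle j) (hlo j) (hhi j)
        exact ⟨c, h1, fun h => absurd h hj0, fun h => absurd h hjJ⟩
  choose c hc1 hc2 hc3 using hc
  -- the homotopies
  have hk : ∀ j, ∃ k : Finset (ι → ℤ) → Ch ι F, k ∅ = 0 ∧
      (∀ σ, Simp σ → bd (k σ) + li k (bd1 F σ) = c j σ - c (j + 1) σ) ∧
      (∀ σ, Simp σ → σ.Nonempty → k σ ∈ su F (Bx (lof (fun v => lo j v ⊓ lo (j + 1) v) σ)
        (hif (fun v => hi j v ⊔ hi (j + 1) v) σ) (σ.card + 1))) ∧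
      ∀ l ∈ L, ∀ σ, k (tr l σ) = tc l (k σ) := by
    intro j
    refine ChM.homotopy (fun v => inf_le_left.trans ((hle j v).trans le_sup_left)) ?_ ?_
      ((hc1 j).mono (fun v => inf_le_left) (fun v => le_sup_left))
      ((hc1 (j + 1)).mono (fun v => inf_le_right) (fun v => le_sup_right))
    · intro l hl v
      rw [hlo j l hl, hlo (j + 1) l hl, inf_add]
    · intro l hl v
      rw [hhi j l hl, hhi (j + 1) l hl, sup_add]
  choose k hk0 hk1 hk2 hk3 using hk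
  let H : Co ι F →ₗ[F] Co ι F :=
    { toFun := fun a σ => if Simp σ then ∑ j ∈ Finset.range J, pr a (k j σ) else 0
      map_add' := by
        intro a b
        funext σ
        have hp : ∀ z : Ch ι F, pr (a + b) z = pr a z + pr b z := by
          intro z
          have h : pr (a + b) = pr a + pr b := by
            refine Finsupp.lhom_ext fun τ x => ?_
            rw [LinearMap.add_apply, pr_single, pr_single, pr_single, Pi.add_apply, mul_add]
          rw [h, LinearMap.add_apply]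
        rw [Pi.add_apply]
        split_ifs with h
        · rw [← Finset.sum_add_distrib]
          exact Finset.sum_congr rfl fun j _ => hp _
        · rw [add_zero]
      map_smul' := by
        intro t a
        funext σ
        have hp : ∀ z : Ch ι F, pr (t • a) z = t • pr a z := by
          intro z
          have h : pr (t • a) = t • pr a := by
            refine Finsupp.lhom_ext fun τ x => ?_
            rw [LinearMap.smul_apply, pr_single, pr_single, Pi.smul_apply, smul_eq_mul,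
              smul_eq_mul]
            ring
          rw [h, LinearMap.smul_apply]
        rw [RingHom.id_apply, Pi.smul_apply]
        split_ifs with h
        · rw [Finset.smul_sum]
          exact Finset.sum_congr rfl fun j _ => hp _
        · rw [smul_zero] }
  have hH : ∀ (a : Co ι F) (σ : Finset (ι → ℤ)), Simp σ →
      H a σ = ∑ j ∈ Finset.range J, pr a (k j σ) := fun a σ hσ => if_pos hσ
  have hH' : ∀ (a : Co ι F) (σ : Finset (ι → ℤ)), ¬ Simp σ → H a σ = 0 :=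
    fun a σ hσ => if_neg hσ
  refine ⟨H, fun a σ hσ => ?_, fun a σ hne => ?_, fun l hl a ha σ => ?_⟩
  · have h1 : dd (H a) σ = ∑ j ∈ Finset.range J, pr a (li (k j) (bd1 F σ)) := by
      rw [dd_apply]
      have h2 : ∀ v ∈ σ, sgn F σ v * H a (σ.erase v) =
          ∑ j ∈ Finset.range J, sgn F σ v * pr a (k j (σ.erase v)) := by
        intro v _
        rw [hH a _ (hσ.mono (Finset.erase_subset _ _)), Finset.mul_sum]
      rw [Finset.sum_congr rfl h2, Finset.sum_comm]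
      refine Finset.sum_congr rfl fun j _ => ?_
      rw [li_bd1, map_sum]
      exact Finset.sum_congr rfl fun v _ => by rw [map_smul, smul_eq_mul]
    have h2 : H (dd a) σ = ∑ j ∈ Finset.range J, pr a (bd (k j σ)) := by
      rw [hH _ σ hσ]
      exact Finset.sum_congr rfl fun j _ => (pr_bd _ _).symm
    rw [h1, h2, ← Finset.sum_add_distrib]
    have h3 : ∀ j ∈ Finset.range J, pr a (li (k j) (bd1 F σ)) + pr a (bd (k j σ)) =
        pr a (c j σ) - pr a (c (j + 1) σ) := by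
      intro j _
      rw [← map_add, add_comm, hk1 j σ hσ, map_sub]
    rw [Finset.sum_congr rfl h3, Finset.sum_range_sub', hc2 0 rfl, hc3 J rfl, pr_single,
      pr_single, one_mul, one_mul]
  · have hσ : Simp σ := by
      by_contra h
      exact hne (hH' a σ h)
    rw [hH a σ hσ] at hne
    obtain ⟨j, hj, hj'⟩ := Finset.exists_ne_zero_of_sum_ne_zero hne
    have hσ1 : σ.Nonempty := by
      rw [Finset.nonempty_iff_ne_empty]
      rintro rfl
      rw [hk0, map_zero] at hj'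
      exact hj' rfl
    refine ⟨hσ, hσ1, ?_⟩
    rw [pr, Finsupp.linearCombination_apply] at hj'
    obtain ⟨ρ, hρ, hρ'⟩ := Finset.exists_ne_zero_of_sum_ne_zero hj'
    change k j σ ρ * a ρ ≠ 0 at hρ'
    obtain ⟨h1, h2, h3⟩ := mem_su.1 (hk2 j σ hσ hσ1) ρ (left_ne_zero_of_mul hρ')
    refine ⟨ρ, right_ne_zero_of_mul hρ', h1, h3, j, Finset.mem_range.1 hj, fun w hw i => ?_⟩
    obtain ⟨h4, h5⟩ := h2 w hw
    constructor
    · obtain ⟨v, hv, hv'⟩ := exists_lof (fun v => lo j v ⊓ lo (j + 1) v) hσ1 i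
      have h6 := h4 i
      rw [← hv'] at h6
      exact ⟨v, hv, inf_le_iff.1 h6⟩
    · obtain ⟨v, hv, hv'⟩ := exists_hif (fun v => hi j v ⊔ hi (j + 1) v) hσ1 i
      have h6 := h5 i
      rw [← hv'] at h6
      exact ⟨v, hv, le_sup_iff.1 h6⟩
  · by_cases hσ : Simp σ
    · rw [hH a _ (CellA_tr_Simp.2 hσ), hH a σ hσ]
      refine Finset.sum_congr rfl fun j _ => ?_
      rw [hk3 j l hl, pr_tc]
      congr 2
      funext τ
      exact ha τ
    · rw [hH' a σ hσ, hH' a _ (fun h => hσ (CellA_tr_Simp.1 h))]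

end Pool.Agent.H52.FU
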