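import Pool.Agent.H52.FU.Chain

/-!
# Acyclic carriers on the Kuhn triangulation
-/

set_option autoImplicit false

namespace Pool.Agent.H52.FU

open Pool.Agent.H47.ST

variable {ι : Type*} [Fintype ι] {F : Type*} [Field F]

/-! ### Translations -/

/-- translation of chains -/
noncomputable def tc (l : ι → ℤ) : Ch ι F →ₗ[F] Ch ι F := li (fun σ => Finsupp.single (tr l σ) 1)

omit [Fintype ι] in
theorem tc_single (l : ι → ℤ) (σ : Finset (ι → ℤ)) (x : F) :
    tc l (Finsupp.single σ x) = Finsupp.single (tr l σ) x := by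
  rw [tc, li_single, Finsupp.smul_single, smul_eq_mul, mul_one]

omit [Fintype ι] in
theorem tr_zero' (σ : Finset (ι → ℤ)) : tr 0 σ = σ := by
  ext w
  rw [CellA_tr_mem]
  constructor
  · rintro ⟨v, hv, rfl⟩
    rwa [add_zero]
  · intro h
    exact ⟨w, h, add_zero w⟩

omit [Fintype ι] in
theorem tr_tr' (l l' : ι → ℤ) (σ : Finset (ι → ℤ)) : tr l' (tr l σ) = tr (l + l') σ := by
  ext w
  rw [CellA_tr_mem, CellA_tr_mem]
  constructor
  · rintro ⟨v, hv, rfl⟩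
    obtain ⟨u, hu, rfl⟩ := CellA_tr_mem.1 hv
    exact ⟨u, hu, (add_assoc _ _ _).symm⟩
  · rintro ⟨u, hu, rfl⟩
    exact ⟨u + l, CellA_tr_mem.2 ⟨u, hu, rfl⟩, add_assoc _ _ _⟩

omit [Fintype ι] in
theorem tc_zero (z : Ch ι F) : tc 0 z = z := by
  have h : tc (F := F) (0 : ι → ℤ) = LinearMap.id := by
    refine Finsupp.lhom_ext fun σ x => ?_
    rw [tc_single, tr_zero', LinearMap.id_apply]
  rw [h, LinearMap.id_apply]

omit [Fintype ι] in
theorem tc_tc (l l' : ι → ℤ) (z : Ch ι F) : tc l' (tc l z) = tc (l + l') z := by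
  have h : (tc (F := F) l').comp (tc l) = tc (l + l') := by
    refine Finsupp.lhom_ext fun σ x => ?_
    rw [LinearMap.comp_apply, tc_single, tc_single, tc_single, tr_tr']
  exact LinearMap.congr_fun h z

omit [Fintype ι] in
theorem pr_tc (l : ι → ℤ) (a : Co ι F) (z : Ch ι F) :
    pr a (tc l z) = pr (fun σ => a (tr l σ)) z := by
  have h : (fun σ => pr a (Finsupp.single (tr l σ) (1 : F))) = fun σ => a (tr l σ) := by
    funext σ
    rw [pr_single, one_mul]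
  rw [tc, pr_li, h]

theorem tc_bd1 (l : ι → ℤ) (σ : Finset (ι → ℤ)) : tc l (bd1 F σ) = bd1 F (tr l σ) := by
  rw [bd1, bd1, map_sum]
  conv_rhs => rw [tr]
  rw [Finset.sum_map]
  refine Finset.sum_congr rfl fun v _ => ?_
  change _ = Finsupp.single ((tr l σ).erase (v + l)) (sgn F (tr l σ) (v + l))
  rw [CellA_tr_sgn, CellA_tr_erase, tc_single]

theorem tc_bd (l : ι → ℤ) (z : Ch ι F) : bd (tc l z) = tc l (bd z) := by
  have h : bd.comp (tc (F := F) l) = (tc l).comp bd := by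
    refine Finsupp.lhom_ext fun σ x => ?_
    rw [LinearMap.comp_apply, LinearMap.comp_apply, tc_single, bd_single, bd_single, map_smul,
      tc_bd1]
  exact LinearMap.congr_fun h z

omit [Fintype ι] in
theorem card_tr' (l : ι → ℤ) (σ : Finset (ι → ℤ)) : (tr l σ).card = σ.card := Finset.card_map _

omit [Fintype ι] in
theorem tc_mem {W W' : Finset (ι → ℤ) → Prop} {l : ι → ℤ} (h : ∀ τ, W τ → W' (tr l τ))
    {z : Ch ι F} (hz : z ∈ su F W) : tc l z ∈ su F W' :=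
  li_mem (fun τ hτ => single_mem_su (h τ hτ) 1) hz

omit [Fintype ι] in
theorem Bx_tr {a b : ι → ℤ} {k : ℕ} {τ : Finset (ι → ℤ)} (l : ι → ℤ) (h : Bx a b k τ) :
    Bx (a + l) (b + l) k (tr l τ) := by
  obtain ⟨h1, h2, h3⟩ := h
  refine ⟨CellA_tr_Simp.2 h1, fun w hw => ?_, by rw [card_tr', h3]⟩
  obtain ⟨v, hv, rfl⟩ := CellA_tr_mem.1 hw
  exact ⟨add_le_add_left (h2 v hv).1 l, add_le_add_left (h2 v hv).2 l⟩

/-! ### Filling of cycles in a box -/

open Classical in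
/-- a filling of a cycle in the box `[0, b]` -/
noncomputable def K0 (b : ι → ℤ) (k : ℕ) (z : Ch ι F) : Ch ι F :=
  if z = 0 then 0 else
    if h : ∃ w ∈ su F (Bx 0 b (k + 1)), bd w = z then h.choose else 0

/-- a filling of a cycle in the box `[a, b]` -/
noncomputable def Kf (a b : ι → ℤ) (k : ℕ) (z : Ch ι F) : Ch ι F :=
  tc a (K0 (b - a) k (tc (-a) z))

theorem Kf_zero (a b : ι → ℤ) (k : ℕ) : Kf a b k (0 : Ch ι F) = 0 := by
  rw [Kf, map_zero, K0, if_pos rfl, map_zero]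

theorem Kf_tc (a b l : ι → ℤ) (k : ℕ) (z : Ch ι F) :
    Kf (a + l) (b + l) k (tc l z) = tc l (Kf a b k z) := by
  have h1 : b + l - (a + l) = b - a := by abel
  have h2 : l + -(a + l) = -a := by abel
  rw [Kf, Kf, h1, tc_tc, tc_tc, h2]

theorem Kf_spec {a b : ι → ℤ} (hab : a ≤ b) {k : ℕ} {z : Ch ι F} (hz : z ∈ su F (Bx a b k))
    (h0 : bd z = 0) : Kf a b k z ∈ su F (Bx a b (k + 1)) ∧ bd (Kf a b k z) = z := by
  have h1 : tc (-a) z ∈ su F (Bx 0 (b - a) k) := by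
    refine tc_mem (fun τ hτ => ?_) hz
    have h2 := Bx_tr (-a) hτ
    rwa [← sub_eq_add_neg, ← sub_eq_add_neg, sub_self] at h2
  have h2 : bd (tc (-a) z) = 0 := by rw [tc_bd, h0, map_zero]
  have h3 : K0 (b - a) k (tc (-a) z) ∈ su F (Bx 0 (b - a) (k + 1)) ∧
      bd (K0 (b - a) k (tc (-a) z)) = tc (-a) z := by
    unfold K0
    split_ifs with h4 h5
    · exact ⟨Submodule.zero_mem _, by rw [h4, map_zero]⟩
    · exact h5.choose_spec
    · exact absurd (box_acyclic (sub_nonneg.2 hab) h1 h2) h5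
  refine ⟨?_, ?_⟩
  · refine tc_mem (fun τ hτ => ?_) h3.1
    have h4 := Bx_tr a hτ
    rwa [zero_add, sub_add_cancel] at h4
  · rw [Kf, tc_bd, h3.2, tc_tc, neg_add_cancel, tc_zero]

/-! ### Hulls -/

/-- lower corner of the hull -/
noncomputable def lof (lo : (ι → ℤ) → ι → ℤ) (σ : Finset (ι → ℤ)) : ι → ℤ :=
  if h : σ.Nonempty then σ.inf' h lo else 0

/-- upper corner of the hull -/
noncomputable def hif (hi : (ι → ℤ) → ι → ℤ) (σ : Finset (ι → ℤ)) : ι → ℤ :=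
  if h : σ.Nonempty then σ.sup' h hi else 0

omit [Fintype ι] in
theorem lof_le {lo : (ι → ℤ) → ι → ℤ} {σ : Finset (ι → ℤ)} {v : ι → ℤ} (hv : v ∈ σ) :
    lof lo σ ≤ lo v := by
  rw [lof, dif_pos ⟨v, hv⟩]
  exact Finset.inf'_le _ hv

omit [Fintype ι] in
theorem le_hif {hi : (ι → ℤ) → ι → ℤ} {σ : Finset (ι → ℤ)} {v : ι → ℤ} (hv : v ∈ σ) :
    hi v ≤ hif hi σ := by
  rw [hif, dif_pos ⟨v, hv⟩]
  exact Finset.le_sup' _ hv

omit [Fintype ι] in
theorem le_lof {lo : (ι → ℤ) → ι → ℤ} {σ : Finset (ι → ℤ)} (hσ : σ.Nonempty) {w : ι → ℤ}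
    (h : ∀ v ∈ σ, w ≤ lo v) : w ≤ lof lo σ := by
  rw [lof, dif_pos hσ]
  exact Finset.le_inf' _ _ h

omit [Fintype ι] in
theorem hif_le {hi : (ι → ℤ) → ι → ℤ} {σ : Finset (ι → ℤ)} (hσ : σ.Nonempty) {w : ι → ℤ}
    (h : ∀ v ∈ σ, hi v ≤ w) : hif hi σ ≤ w := by
  rw [hif, dif_pos hσ]
  exact Finset.sup'_le _ _ h

omit [Fintype ι] in
theorem lof_mono {lo : (ι → ℤ) → ι → ℤ} {σ τ : Finset (ι → ℤ)} (hτ : τ.Nonempty) (h : τ ⊆ σ) :
    lof lo σ ≤ lof lo τ := le_lof hτ fun _ hv => lof_le (h hv)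

omit [Fintype ι] in
theorem hif_mono {hi : (ι → ℤ) → ι → ℤ} {σ τ : Finset (ι → ℤ)} (hτ : τ.Nonempty) (h : τ ⊆ σ) :
    hif hi τ ≤ hif hi σ := hif_le hτ fun _ hv => le_hif (h hv)

omit [Fintype ι] in
theorem exists_lof (lo : (ι → ℤ) → ι → ℤ) {σ : Finset (ι → ℤ)} (hσ : σ.Nonempty) (i : ι) :
    ∃ v ∈ σ, lo v i = lof lo σ i := by
  rw [lof, dif_pos hσ]
  obtain ⟨v, hv, h⟩ := Finset.exists_mem_eq_inf' hσ (fun v => lo v i)
  exact ⟨v, hv, by rw [Finset.inf'_apply]; exact h.symm⟩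

omit [Fintype ι] in
theorem exists_hif (hi : (ι → ℤ) → ι → ℤ) {σ : Finset (ι → ℤ)} (hσ : σ.Nonempty) (i : ι) :
    ∃ v ∈ σ, hi v i = hif hi σ i := by
  rw [hif, dif_pos hσ]
  obtain ⟨v, hv, h⟩ := Finset.exists_mem_eq_sup' hσ (fun v => hi v i)
  exact ⟨v, hv, by rw [Finset.sup'_apply]; exact h.symm⟩

omit [Fintype ι] in
theorem tr_nonempty {l : ι → ℤ} {σ : Finset (ι → ℤ)} (h : σ.Nonempty) : (tr l σ).Nonempty := by
  obtain ⟨v, hv⟩ := h
  exact ⟨v + l, CellA_tr_mem.2 ⟨v, hv, rfl⟩⟩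

omit [Fintype ι] in
theorem lof_tr {lo : (ι → ℤ) → ι → ℤ} {l : ι → ℤ} (hl : ∀ v, lo (v + l) = lo v + l)
    {σ : Finset (ι → ℤ)} (hσ : σ.Nonempty) : lof lo (tr l σ) = lof lo σ + l := by
  refine le_antisymm ?_ (le_lof (tr_nonempty hσ) fun w hw => ?_)
  · rw [← sub_le_iff_le_add]
    refine le_lof hσ fun v hv => ?_
    rw [sub_le_iff_le_add, ← hl]
    exact lof_le (CellA_tr_mem.2 ⟨v, hv, rfl⟩)
  · obtain ⟨v, hv, rfl⟩ := CellA_tr_mem.1 hw
    rw [hl]
    exact add_le_add_left (lof_le hv) l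

omit [Fintype ι] in
theorem hif_tr {hi : (ι → ℤ) → ι → ℤ} {l : ι → ℤ} (hl : ∀ v, hi (v + l) = hi v + l)
    {σ : Finset (ι → ℤ)} (hσ : σ.Nonempty) : hif hi (tr l σ) = hif hi σ + l := by
  refine le_antisymm (hif_le (tr_nonempty hσ) fun w hw => ?_) ?_
  · obtain ⟨v, hv, rfl⟩ := CellA_tr_mem.1 hw
    rw [hl]
    exact add_le_add_left (le_hif hv) l
  · rw [← le_sub_iff_add_le]
    refine hif_le hσ fun v hv => ?_
    rw [le_sub_iff_add_le, ← hl]
    exact le_hif (CellA_tr_mem.2 ⟨v, hv, rfl⟩)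

/-! ### The recursion -/

/-- the recursion -/
noncomputable def rec1 (lo hi : (ι → ℤ) → ι → ℤ) (s : F) (δ : ℕ) (r : Finset (ι → ℤ) → Ch ι F)
    (h0 : Ch ι F) : ℕ → Finset (ι → ℤ) → Ch ι F
  | 0, _ => h0
  | n + 1, σ => Kf (lof lo σ) (hif hi σ) (n + δ)
      (r σ + s • ∑ v ∈ σ, sgn F σ v • rec1 lo hi s δ r h0 n (σ.erase v))

theorem rec_solve {lo hi : (ι → ℤ) → ι → ℤ} (hle : ∀ v, lo v ≤ hi v) {L : AddSubgroup (ι → ℤ)}
    (hlo : ∀ l ∈ L, ∀ v, lo (v + l) = lo v + l) (hhi : ∀ l ∈ L, ∀ v, hi (v + l) = hi v + l)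
    (s : F) (δ : ℕ) (r : Finset (ι → ℤ) → Ch ι F) (h0 : Ch ι F)
    (h00 : h0 ∈ su F (fun τ => τ = ∅ ∧ δ = 0)) (hr0 : bd h0 = r ∅)
    (hrs : ∀ σ, Simp σ → σ.Nonempty → ∀ k, σ.card = k + 1 →
      r σ ∈ su F (Bx (lof lo σ) (hif hi σ) (k + δ)))
    (hr : ∀ σ, Simp σ → bd (r σ) + s • li r (bd1 F σ) = 0)
    (hrt : ∀ l ∈ L, ∀ σ, r (tr l σ) = tc l (r σ)) (h0t : ∀ l ∈ L, tc l h0 = h0) :
    ∃ h : Finset (ι → ℤ) → Ch ι F, h ∅ = h0 ∧
      (∀ σ, Simp σ → bd (h σ) = r σ + s • li h (bd1 F σ)) ∧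
      (∀ σ, Simp σ → σ.Nonempty → h σ ∈ su F (Bx (lof lo σ) (hif hi σ) (σ.card + δ))) ∧
      ∀ l ∈ L, ∀ σ, h (tr l σ) = tc l (h σ) := by
  classical
  set g := rec1 lo hi s δ r h0 with hg
  have hlohi : ∀ σ : Finset (ι → ℤ), σ.Nonempty → lof lo σ ≤ hif hi σ := by
    rintro σ ⟨v, hv⟩
    exact (lof_le hv).trans ((hle v).trans (le_hif hv))
  -- the main induction
  have key : ∀ n : ℕ, ∀ σ : Finset (ι → ℤ), Simp σ → σ.card = n →
      bd (g n σ) = r σ + s • ∑ v ∈ σ, sgn F σ v • g (n - 1) (σ.erase v) ∧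
      (σ.Nonempty → g n σ ∈ su F (Bx (lof lo σ) (hif hi σ) (n + δ))) := by
    intro n
    induction n with
    | zero =>
      intro σ _ hc
      have h1 : σ = ∅ := Finset.card_eq_zero.1 hc
      subst h1
      refine ⟨?_, fun h => absurd h Finset.not_nonempty_empty⟩
      rw [Finset.sum_empty, smul_zero, add_zero]
      exact hr0
    | succ n ih =>
      intro σ hσ hc
      have hne : σ.Nonempty := Finset.card_pos.1 (by omega)
      have hE : ∀ v ∈ σ, Simp (σ.erase v) ∧ (σ.erase v).card = n := fun v hv =>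
        ⟨hσ.mono (Finset.erase_subset _ _), by rw [Finset.card_erase_of_mem hv, hc]; rfl⟩
      have hz1 : r σ + s • ∑ v ∈ σ, sgn F σ v • g n (σ.erase v) ∈
          su F (Bx (lof lo σ) (hif hi σ) (n + δ)) := by
        refine Submodule.add_mem _ (hrs σ hσ hne n hc) (Submodule.smul_mem _ _
          (Submodule.sum_mem _ fun v hv => Submodule.smul_mem _ _ ?_))
        obtain ⟨h1, h2⟩ := hE v hv
        rcases (σ.erase v).eq_empty_or_nonempty with h3 | h3
        · have h4 : n = 0 := by rw [← h2, h3, Finset.card_empty]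
          subst h4
          change h0 ∈ _
          refine su_mono ?_ h00
          rintro τ ⟨rfl, h5⟩
          refine ⟨fun w hw => absurd hw (Finset.notMem_empty w),
            fun w hw => absurd hw (Finset.notMem_empty w), ?_⟩
          rw [Finset.card_empty, h5]
        · refine su_mono ?_ ((ih _ h1 h2).2 h3)
          rintro τ ⟨h4, h5, h6⟩
          exact ⟨h4, fun w hw => ⟨(lof_mono h3 (Finset.erase_subset _ _)).trans (h5 w hw).1,
            (h5 w hw).2.trans (hif_mono h3 (Finset.erase_subset _ _))⟩, h6⟩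
      have hz2 : bd (r σ + s • ∑ v ∈ σ, sgn F σ v • g n (σ.erase v)) = 0 := by
        rw [map_add, map_smul, map_sum]
        have h1 : ∀ v ∈ σ, bd (sgn F σ v • g n (σ.erase v)) = sgn F σ v • r (σ.erase v) +
            s • (sgn F σ v • ∑ w ∈ σ.erase v, sgn F (σ.erase v) w •
              g (n - 1) ((σ.erase v).erase w)) := by
          intro v hv
          rw [map_smul, (ih _ (hE v hv).1 (hE v hv).2).1, smul_add, smul_comm (sgn F σ v) s]
        rw [Finset.sum_congr rfl h1, Finset.sum_add_distrib, smul_add, ← add_assoc, ← li_bd1,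
          hr σ hσ, zero_add, ← Finset.smul_sum]
        have h2 : ∑ v ∈ σ, sgn F σ v • ∑ w ∈ σ.erase v, sgn F (σ.erase v) w •
              g (n - 1) ((σ.erase v).erase w) = li (g (n - 1)) (bd (bd1 F σ)) := by
          rw [bd, li_bd1, map_sum]
          refine Finset.sum_congr rfl fun v _ => ?_
          rw [map_smul, li_bd1]
        rw [h2, bd_bd1 hσ, map_zero, smul_zero, smul_zero]
      have h3 := Kf_spec (hlohi σ hne) hz1 hz2
      have h4 : g (n + 1) σ = Kf (lof lo σ) (hif hi σ) (n + δ)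
          (r σ + s • ∑ v ∈ σ, sgn F σ v • g n (σ.erase v)) := rfl
      rw [h4]
      refine ⟨h3.2, fun _ => ?_⟩
      have h5 : n + 1 + δ = n + δ + 1 := by omega
      rw [h5]
      exact h3.1
  have keyt : ∀ n : ℕ, ∀ l ∈ L, ∀ σ : Finset (ι → ℤ), σ.card = n →
      g n (tr l σ) = tc l (g n σ) := by
    intro n
    induction n with
    | zero =>
      intro l hl σ _
      exact (h0t l hl).symm
    | succ n ih =>
      intro l hl σ hc
      have hne : σ.Nonempty := Finset.card_pos.1 (by omega)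
      have h4 : ∀ σ, g (n + 1) σ = Kf (lof lo σ) (hif hi σ) (n + δ)
          (r σ + s • ∑ v ∈ σ, sgn F σ v • g n (σ.erase v)) := fun _ => rfl
      rw [h4, h4, lof_tr (hlo l hl) hne, hif_tr (hhi l hl) hne, ← Kf_tc]
      congr 1
      rw [map_add, map_smul, map_sum, hrt l hl]
      congr 2
      conv_lhs => rw [tr]
      rw [Finset.sum_map]
      refine Finset.sum_congr rfl fun v hv => ?_
      change sgn F (tr l σ) (v + l) • g n ((tr l σ).erase (v + l)) = _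
      rw [CellA_tr_sgn, CellA_tr_erase, map_smul,
        ih l hl _ (by rw [Finset.card_erase_of_mem hv, hc]; rfl)]
  refine ⟨fun σ => g σ.card σ, rfl, fun σ hσ => ?_, fun σ hσ hne => (key _ σ hσ rfl).2 hne,
    fun l hl σ => ?_⟩
  · rw [(key _ σ hσ rfl).1, li_bd1]
    congr 2
    refine Finset.sum_congr rfl fun v hv => ?_
    rw [Finset.card_erase_of_mem hv]
  · change g (tr l σ).card (tr l σ) = _
    rw [card_tr']
    exact keyt _ l hl σ rfl

end Pool.Agent.H52.FU
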