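import Pool.Agent.H47.ST.CellA

/-!
# Chains of the Kuhn triangulation and acyclicity of boxes
-/

set_option autoImplicit false

namespace Pool.Agent.H52.FU

open Pool.Agent.H47.ST

variable {ι : Type*} [Fintype ι] {F : Type*} [Field F]

/-- chains (the empty simplex is included: augmented complex) -/
abbrev Ch (ι F : Type*) [Field F] := Finset (ι → ℤ) →₀ F

/-- linear extension -/
noncomputable def li (c : Finset (ι → ℤ) → Ch ι F) : Ch ι F →ₗ[F] Ch ι F :=
  Finsupp.linearCombination F c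

/-- boundary of a simplex -/
noncomputable def bd1 (F : Type*) [Field F] (σ : Finset (ι → ℤ)) : Ch ι F :=
  ∑ v ∈ σ, Finsupp.single (σ.erase v) (sgn F σ v)

/-- boundary -/
noncomputable def bd : Ch ι F →ₗ[F] Ch ι F := li (bd1 F)

/-- pairing with cochains -/
noncomputable def pr (a : Co ι F) : Ch ι F →ₗ[F] F := Finsupp.linearCombination F a

omit [Fintype ι] in
theorem li_single (c : Finset (ι → ℤ) → Ch ι F) (σ : Finset (ι → ℤ)) (x : F) :
    li c (Finsupp.single σ x) = x • c σ := Finsupp.linearCombination_single F x σ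

theorem bd_single (σ : Finset (ι → ℤ)) (x : F) : bd (Finsupp.single σ x) = x • bd1 F σ :=
  li_single _ σ x

omit [Fintype ι] in
theorem pr_single (a : Co ι F) (σ : Finset (ι → ℤ)) (x : F) :
    pr a (Finsupp.single σ x) = x * a σ := Finsupp.linearCombination_single F x σ

theorem li_bd1 (c : Finset (ι → ℤ) → Ch ι F) (σ : Finset (ι → ℤ)) :
    li c (bd1 F σ) = ∑ v ∈ σ, sgn F σ v • c (σ.erase v) := by
  rw [bd1, map_sum]
  exact Finset.sum_congr rfl fun v _ => li_single _ _ _

theorem pr_bd1 (a : Co ι F) (σ : Finset (ι → ℤ)) : pr a (bd1 F σ) = dd a σ := by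
  rw [bd1, map_sum, dd_apply]
  exact Finset.sum_congr rfl fun v _ => pr_single _ _ _

theorem pr_bd (a : Co ι F) (z : Ch ι F) : pr a (bd z) = pr (dd a) z := by
  have h : (pr a).comp bd = pr (dd a) := by
    refine Finsupp.lhom_ext fun σ x => ?_
    rw [LinearMap.comp_apply, bd_single, map_smul, pr_bd1, pr_single, smul_eq_mul]
  exact LinearMap.congr_fun h z

omit [Fintype ι] in
theorem pr_li (a : Co ι F) (c : Finset (ι → ℤ) → Ch ι F) (z : Ch ι F) :
    pr a (li c z) = pr (fun σ => pr a (c σ)) z := by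
  have h : (pr a).comp (li c) = pr (fun σ => pr a (c σ)) := by
    refine Finsupp.lhom_ext fun σ x => ?_
    rw [LinearMap.comp_apply, li_single, map_smul, pr_single, smul_eq_mul]
  exact LinearMap.congr_fun h z

omit [Fintype ι] in
theorem ch_ext {z z' : Ch ι F} (h : ∀ a : Co ι F, pr a z = pr a z') : z = z' := by
  classical
  ext τ
  have h1 : ∀ y : Ch ι F, pr (Pi.single τ 1) y = y τ := by
    intro y
    have h2 : pr (Pi.single τ (1 : F)) = Finsupp.lapply (M := F) (R := F) τ := by
      refine Finsupp.lhom_ext fun σ x => ?_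
      rw [pr_single, Finsupp.lapply_apply, Finsupp.single_apply, Pi.single_apply, mul_ite, mul_one,
        mul_zero]
    rw [h2, Finsupp.lapply_apply]
  rw [← h1 z, ← h1 z', h]

theorem dd_dd (a : Co ι F) {σ : Finset (ι → ℤ)} (h : Simp σ) : dd (dd a) σ = 0 := by
  have h1 := congrFun (dX_dX (F := F) (Set.univ) a) σ
  have hI : ∀ τ : Finset (ι → ℤ), Simp τ → In Set.univ τ := fun τ hτ => ⟨hτ, fun _ _ => trivial⟩
  rw [dX_apply, if_pos (hI σ h), Pi.zero_apply] at h1
  rw [dd_apply, ← h1]
  refine Finset.sum_congr rfl fun v _ => ?_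
  rw [dX_apply, if_pos (hI _ (h.mono (Finset.erase_subset _ _))), dd_apply]

theorem bd_bd1 {σ : Finset (ι → ℤ)} (h : Simp σ) : bd (bd1 F σ) = 0 := by
  refine ch_ext fun a => ?_
  rw [pr_bd, pr_bd1, dd_dd a h, map_zero]

/-! ### Supports -/

/-- chains supported on the sets with the property `W` -/
def su (F : Type*) [Field F] (W : Finset (ι → ℤ) → Prop) : Submodule F (Ch ι F) :=
  Finsupp.supported F F {τ | W τ}

omit [Fintype ι] in
theorem mem_su {W : Finset (ι → ℤ) → Prop} {z : Ch ι F} : z ∈ su F W ↔ ∀ τ, z τ ≠ 0 → W τ := by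
  unfold su
  rw [Finsupp.mem_supported']
  exact ⟨fun h τ h1 => by_contra fun h2 => h1 (h τ h2), fun h τ h1 => by_contra fun h2 => h1 (h τ h2)⟩

omit [Fintype ι] in
theorem single_mem_su {W : Finset (ι → ℤ) → Prop} {τ : Finset (ι → ℤ)} (h : W τ) (x : F) :
    Finsupp.single τ x ∈ su F W := Finsupp.single_mem_supported F x h

omit [Fintype ι] in
theorem su_mono {W W' : Finset (ι → ℤ) → Prop} (h : ∀ τ, W τ → W' τ) : su F W ≤ su F W' :=
  Finsupp.supported_mono h

omit [Fintype ι] in
theorem li_mem {W : Finset (ι → ℤ) → Prop} {S : Submodule F (Ch ι F)}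
    {c : Finset (ι → ℤ) → Ch ι F} (hc : ∀ τ, W τ → c τ ∈ S) {z : Ch ι F} (hz : z ∈ su F W) :
    li c z ∈ S := by
  rw [mem_su] at hz
  unfold li
  rw [Finsupp.linearCombination_apply]
  refine Submodule.sum_mem _ fun τ hτ => Submodule.smul_mem _ _ (hc τ (hz τ ?_))
  exact Finsupp.mem_support_iff.1 hτ

/-! ### Cones -/

/-- the cone with apex `p` -/
noncomputable def cone (F : Type*) [Field F] (p : ι → ℤ) (σ : Finset (ι → ℤ)) : Ch ι F :=
  if p ∈ σ then 0 else Finsupp.single (insert p σ) 1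

omit [Fintype ι] in
theorem sgn_min {σ : Finset (ι → ℤ)} {p : ι → ℤ} (h : ∀ u ∈ σ, p ≤ u) : sgn F σ p = 1 := by
  classical
  have h1 : σ.filter (fun w => w < p) = ∅ := by
    rw [Finset.filter_eq_empty_iff]
    intro u hu hlt
    exact absurd (lt_of_lt_of_le hlt (h u hu)) (lt_irrefl _)
  unfold sgn
  rw [h1, Finset.card_empty, pow_zero]

theorem sgn_insert {σ : Finset (ι → ℤ)} {p u : ι → ℤ} (hp : p ∉ σ) (h : p < u) :
    sgn F (insert p σ) u = -sgn F σ u := by
  classical
  have h1 : (insert p σ).filter (fun w => w < u) = insert p (σ.filter (fun w => w < u)) := by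
    rw [Finset.filter_insert, if_pos h]
  have h2 : p ∉ σ.filter (fun w => w < u) := fun h3 => hp (Finset.mem_of_mem_filter _ h3)
  unfold sgn
  rw [h1, Finset.card_insert_of_notMem h2, pow_succ, mul_neg_one]

theorem cone_bd {p : ι → ℤ} {σ : Finset (ι → ℤ)} (h : ∀ u ∈ σ, p ≤ u) :
    bd (cone F p σ) + li (cone F p) (bd1 F σ) = Finsupp.single σ 1 := by
  rw [li_bd1]
  by_cases hp : p ∈ σ
  · rw [cone, if_pos hp, map_zero, zero_add, Finset.sum_eq_single p]
    · rw [cone, if_neg (Finset.notMem_erase p σ), Finset.insert_erase hp, sgn_min h, one_smul]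
    · intro u _ hne
      rw [cone, if_pos (Finset.mem_erase.2 ⟨hne.symm, hp⟩), smul_zero]
    · exact fun h' => absurd hp h'
  · rw [cone, if_neg hp, bd_single, one_smul, bd1, Finset.sum_insert hp,
      Finset.erase_insert hp, add_assoc, ← Finset.sum_add_distrib]
    have h1 : sgn F (insert p σ) p = 1 := sgn_min fun u hu => by
      rcases Finset.mem_insert.1 hu with rfl | hu
      · exact le_rfl
      · exact h u hu
    rw [h1, Finset.sum_eq_zero, add_zero]
    intro u hu
    have hne : p ≠ u := fun h' => hp (h' ▸ hu)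
    have hlt : p < u := lt_of_le_of_ne (h u hu) hne
    rw [sgn_insert hp hlt, Finset.erase_insert_of_ne hne, cone,
      if_neg (fun h' => hp (Finset.mem_of_mem_erase h')), Finsupp.smul_single, smul_eq_mul, mul_one,
      ← Finsupp.single_add, neg_add_cancel, Finsupp.single_zero]

/-! ### The vector field on a box -/

/-- coordinatewise maximum of `a` and of the elements of `σ` -/
def tp (a : ι → ℤ) (σ : Finset (ι → ℤ)) : ι → ℤ :=
  (insert a σ).sup' (Finset.insert_nonempty _ _) id

theorem le_tp (a : ι → ℤ) (σ : Finset (ι → ℤ)) : a ≤ tp a σ :=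
  Finset.le_sup' (f := id) (Finset.mem_insert_self a σ)

theorem le_tp_of_mem {a : ι → ℤ} {σ : Finset (ι → ℤ)} {u : ι → ℤ} (h : u ∈ σ) : u ≤ tp a σ :=
  Finset.le_sup' (f := id) (Finset.mem_insert_of_mem h)

theorem tp_eq {a : ι → ℤ} {σ : Finset (ι → ℤ)} {m : ι → ℤ} (hm : m ∈ σ) (ha : a ≤ m)
    (h : ∀ u ∈ σ, u ≤ m) : tp a σ = m := by
  refine le_antisymm (Finset.sup'_le _ _ fun u hu => ?_) (le_tp_of_mem hm)
  rcases Finset.mem_insert.1 hu with rfl | hu
  · exact ha
  · exact h u hu

omit [Fintype ι] in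
theorem exists_top {σ : Finset (ι → ℤ)} (h : Simp σ) (hne : σ.Nonempty) :
    ∃ m ∈ σ, ∀ u ∈ σ, u ≤ m := by
  obtain ⟨m, hm⟩ := σ.exists_maximal hne
  refine ⟨m, hm.1, fun u hu => ?_⟩
  rcases h m hm.1 u hu with h1 | h1
  · exact hm.2 hu h1.1
  · exact h1.1

theorem tp_mem {a : ι → ℤ} {σ : Finset (ι → ℤ)} (h : Simp σ) (hne : σ.Nonempty)
    (ha : ∀ u ∈ σ, a ≤ u) : tp a σ ∈ σ := by
  obtain ⟨m, hm, hm'⟩ := exists_top h hne
  rw [tp_eq hm (ha m hm) hm']
  exact hm

theorem tp_empty (a : ι → ℤ) : tp a ∅ = a := by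
  unfold tp
  refine le_antisymm (Finset.sup'_le _ _ fun u hu => ?_) (Finset.le_sup' (f := id) (by simp))
  rcases Finset.mem_insert.1 hu with rfl | hu
  · exact le_rfl
  · exact absurd hu (Finset.notMem_empty u)

/-- the apex for `σ` in the box with the lower corner `a` -/
def ap (a : ι → ℤ) (σ : Finset (ι → ℤ)) : ι → ℤ := (tp a σ - 1) ⊔ a

theorem ap_empty (a : ι → ℤ) : ap a ∅ = a := by
  unfold ap
  rw [tp_empty]
  refine sup_eq_right.2 fun i => ?_
  simp only [Pi.sub_apply, Pi.one_apply]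
  omega

theorem ap_le {a : ι → ℤ} {σ : Finset (ι → ℤ)} (h : Simp σ) (ha : ∀ u ∈ σ, a ≤ u) {u : ι → ℤ}
    (hu : u ∈ σ) : ap a σ ≤ u := by
  have ht := tp_mem h ⟨u, hu⟩ ha
  have hle := le_tp_of_mem (a := a) hu
  refine sup_le (fun i => ?_) (ha u hu)
  simp only [Pi.sub_apply, Pi.one_apply]
  rcases h _ ht u hu with h1 | h1
  · have h2 : tp a σ i ≤ u i := h1.1 i
    omega
  · have h2 : tp a σ i ≤ u i + 1 := h1.2 i
    omega

theorem le_ap_add {a : ι → ℤ} {σ : Finset (ι → ℤ)} {u : ι → ℤ}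
    (hu : u ∈ σ) : u ≤ ap a σ + 1 := by
  have hle := le_tp_of_mem (a := a) hu
  intro i
  have h1 : u i ≤ tp a σ i := hle i
  have h2 : tp a σ i - 1 ≤ ap a σ i := le_max_left _ _
  simp only [Pi.add_apply, Pi.one_apply]
  omega

theorem ap_simp {a : ι → ℤ} {σ : Finset (ι → ℤ)} (h : Simp σ) (ha : ∀ u ∈ σ, a ≤ u) :
    Simp (insert (ap a σ) σ) := by
  have h1 : ∀ u ∈ σ, Adj (ap a σ) u := fun u hu => Or.inl ⟨ap_le h ha hu, le_ap_add hu⟩
  intro v hv w hw
  rcases Finset.mem_insert.1 hv with rfl | hv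
  · rcases Finset.mem_insert.1 hw with rfl | hw
    · refine Or.inl ⟨le_rfl, fun i => ?_⟩
      simp only [Pi.add_apply, Pi.one_apply]
      omega
    · exact h1 w hw
  · rcases Finset.mem_insert.1 hw with rfl | hw
    · exact (h1 v hv).symm
    · exact h v hv w hw

/-- simplices with `k` vertices in the box `[a, b]` -/
def Bx (a b : ι → ℤ) (k : ℕ) (τ : Finset (ι → ℤ)) : Prop :=
  Simp τ ∧ (∀ w ∈ τ, a ≤ w ∧ w ≤ b) ∧ τ.card = k

/-- the rank of a simplex in the box with the lower corner `a` -/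
def rk (a : ι → ℤ) (σ : Finset (ι → ℤ)) : ℕ :=
  if σ = ∅ then 0 else ∑ i, (tp a σ i - a i).toNat + 1

theorem rk_lt {a : ι → ℤ} {σ ρ : Finset (ι → ℤ)} (hσ : σ.Nonempty) (hρ : Simp ρ)
    (hne : ρ.Nonempty) (ha : ∀ w ∈ ρ, a ≤ w) (h : ∀ w ∈ ρ, w < tp a σ) : rk a ρ < rk a σ := by
  unfold rk
  rw [if_neg hne.ne_empty, if_neg hσ.ne_empty]
  have hm := tp_mem hρ hne ha
  have h1 := h _ hm
  have h2 := ha _ hm
  obtain ⟨h3, i, hi⟩ := Pi.lt_def.1 h1
  refine Nat.add_lt_add_right (Finset.sum_lt_sum (fun j _ => ?_) ⟨i, Finset.mem_univ i, ?_⟩) 1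
  · have h4 : tp a ρ j ≤ tp a σ j := h3 j
    omega
  · have h4 : a i ≤ tp a ρ i := h2 i
    omega

/-- the vector field -/
noncomputable def vf (F : Type*) [Field F] (a : ι → ℤ) (σ : Finset (ι → ℤ)) : Ch ι F :=
  cone F (ap a σ) σ

theorem cone_mem {a b p : ι → ℤ} {k : ℕ} {σ : Finset (ι → ℤ)} (h : Simp (insert p σ))
    (hb : ∀ w ∈ insert p σ, a ≤ w ∧ w ≤ b) (hk : σ.card = k) :
    cone F p σ ∈ su F (Bx a b (k + 1)) := by
  unfold cone
  split_ifs with h1
  · exact Submodule.zero_mem _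
  · exact single_mem_su ⟨h, hb, by rw [Finset.card_insert_of_notMem h1, hk]⟩ 1

theorem vf_mem {a b : ι → ℤ} (hab : a ≤ b) {k : ℕ} {σ : Finset (ι → ℤ)} (h : Bx a b k σ) :
    vf F a σ ∈ su F (Bx a b (k + 1)) := by
  obtain ⟨h1, h2, h3⟩ := h
  have ha : ∀ u ∈ σ, a ≤ u := fun u hu => (h2 u hu).1
  refine cone_mem (ap_simp h1 ha) (fun w hw => ?_) h3
  rcases Finset.mem_insert.1 hw with rfl | hw
  · refine ⟨le_sup_right, ?_⟩
    rcases σ.eq_empty_or_nonempty with rfl | ⟨u, hu⟩
    · rw [ap_empty]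
      exact hab
    · exact (ap_le h1 ha hu).trans (h2 u hu).2
  · exact h2 w hw

/-- the defect of the vector field lowers the rank -/
theorem vf_defect {a b : ι → ℤ} (hab : a ≤ b) {k : ℕ} {σ : Finset (ι → ℤ)} (h : Bx a b k σ) :
    Finsupp.single σ 1 - bd (vf F a σ) - li (vf F a) (bd1 F σ) ∈
      su F (fun τ => Bx a b k τ ∧ rk a τ < rk a σ) := by
  obtain ⟨h1, h2, h3⟩ := h
  have ha : ∀ u ∈ σ, a ≤ u := fun u hu => (h2 u hu).1
  have hc := cone_bd (F := F) (p := ap a σ) (fun u hu => ap_le h1 ha hu)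
  have he : Finsupp.single σ (1 : F) - bd (vf F a σ) - li (vf F a) (bd1 F σ) =
      ∑ u ∈ σ, sgn F σ u • (cone F (ap a σ) (σ.erase u) - vf F a (σ.erase u)) := by
    rw [← hc, li_bd1, li_bd1]
    unfold vf
    rw [add_sub_cancel_left, ← Finset.sum_sub_distrib]
    exact Finset.sum_congr rfl fun u _ => (smul_sub _ _ _).symm
  rw [he]
  refine Submodule.sum_mem _ fun u hu => Submodule.smul_mem _ _ ?_
  have hk : (σ.erase u).card + 1 = k := by rw [Finset.card_erase_add_one hu, h3]
  obtain ⟨k', hk'⟩ : ∃ k', k = k' + 1 := ⟨_, hk.symm⟩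
  have hk2 : (σ.erase u).card = k' := by omega
  subst hk'
  have hs : Simp (σ.erase u) := h1.mono (Finset.erase_subset _ _)
  have ht := tp_mem h1 ⟨u, hu⟩ ha
  by_cases hut : u = tp a σ
  · -- the top vertex is removed
    by_cases hp : ap a σ = tp a σ
    · -- `σ = {a}`
      have h4 : tp a σ = a := by
        refine le_antisymm (fun i => ?_) (le_tp a σ)
        have h5 := congrFun hp i
        have h6 : ap a σ i = max (tp a σ i - 1) (a i) := rfl
        rw [h6] at h5
        have h9 : a i ≤ tp a σ i := le_tp a σ i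
        rcases max_choice (tp a σ i - 1) (a i) with h8 | h8
        · omega
        · exact (h5.symm.trans h8).le
      have h5 : σ.erase u = ∅ := by
        rw [Finset.eq_empty_iff_forall_notMem]
        intro w hw
        obtain ⟨hw1, hw2⟩ := Finset.mem_erase.1 hw
        refine hw1 (le_antisymm ?_ ?_)
        · rw [hut]
          exact le_tp_of_mem hw2
        · rw [hut, h4]
          exact ha w hw2
      have h6 : ap a σ = a := hp.trans h4
      rw [h5, h6, vf, ap_empty, sub_self]
      exact Submodule.zero_mem _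
    · have hlt : ap a σ < tp a σ := lt_of_le_of_ne (ap_le h1 ha ht) hp
      have hle : ∀ w ∈ σ.erase u, w < tp a σ := by
        intro w hw
        obtain ⟨hw1, hw2⟩ := Finset.mem_erase.1 hw
        exact lt_of_le_of_ne (le_tp_of_mem hw2) (fun h' => hw1 (h'.trans hut.symm))
      have haE : ∀ w ∈ σ.erase u, a ≤ w := fun w hw => ha w (Finset.mem_of_mem_erase hw)
      refine Submodule.sub_mem _ ?_ ?_
      · -- first cone
        unfold cone
        split_ifs with h4
        · exact Submodule.zero_mem _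
        have hI : Simp (insert (ap a σ) (σ.erase u)) :=
          (ap_simp h1 ha).mono (Finset.insert_subset_insert _ (Finset.erase_subset _ _))
        refine single_mem_su ⟨⟨hI, fun w hw => ?_, ?_⟩, ?_⟩ 1
        · rcases Finset.mem_insert.1 hw with rfl | hw
          · exact ⟨le_sup_right, (ap_le h1 ha hu).trans (h2 u hu).2⟩
          · exact h2 w (Finset.mem_of_mem_erase hw)
        · rw [Finset.card_insert_of_notMem h4, hk2]
        · refine rk_lt ⟨u, hu⟩ hI (Finset.insert_nonempty _ _) (fun w hw => ?_) fun w hw => ?_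
          · rcases Finset.mem_insert.1 hw with rfl | hw
            · exact le_sup_right
            · exact haE w hw
          · rcases Finset.mem_insert.1 hw with rfl | hw
            · exact hlt
            · exact hle w hw
      · unfold vf cone
        split_ifs with h4
        · exact Submodule.zero_mem _
        have hI := ap_simp hs haE
        have hlt' : ap a (σ.erase u) < tp a σ := by
          rcases (σ.erase u).eq_empty_or_nonempty with h5 | ⟨w, hw⟩
          · rw [h5, ap_empty]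
            exact lt_of_le_of_lt (le_sup_right : a ≤ ap a σ) hlt
          · exact lt_of_le_of_lt (ap_le hs haE hw) (hle w hw)
        have hin : ∀ w ∈ insert (ap a (σ.erase u)) (σ.erase u), w < tp a σ := by
          intro w hw
          rcases Finset.mem_insert.1 hw with rfl | hw
          · exact hlt'
          · exact hle w hw
        refine single_mem_su ⟨⟨hI, fun w hw => ⟨?_, ?_⟩, ?_⟩, ?_⟩ 1
        · rcases Finset.mem_insert.1 hw with rfl | hw
          · exact le_sup_right
          · exact haE w hw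
        · exact (hin w hw).le.trans (h2 _ ht).2
        · rw [Finset.card_insert_of_notMem h4, hk2]
        · refine rk_lt ⟨u, hu⟩ hI (Finset.insert_nonempty _ _) (fun w hw => ?_) hin
          rcases Finset.mem_insert.1 hw with rfl | hw
          · exact le_sup_right
          · exact haE w hw
  · -- the top vertex stays
    have h4 : tp a (σ.erase u) = tp a σ :=
      tp_eq (Finset.mem_erase.2 ⟨fun h' => hut h'.symm, ht⟩) (le_tp a σ)
        fun w hw => le_tp_of_mem (Finset.mem_of_mem_erase hw)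
    have h5 : ap a (σ.erase u) = ap a σ := by
      unfold ap
      rw [h4]
    rw [vf, h5, sub_self]
    exact Submodule.zero_mem _

theorem box_acyclic_aux {a b : ι → ℤ} (hab : a ≤ b) (k : ℕ) (N : ℕ) : ∀ z : Ch ι F,
    z ∈ su F (fun τ => Bx a b k τ ∧ rk a τ < N) → bd z = 0 →
      ∃ w ∈ su F (Bx a b (k + 1)), bd w = z := by
  induction N with
  | zero =>
    intro z hz _
    refine ⟨0, Submodule.zero_mem _, ?_⟩
    have : z = 0 := by
      ext τ
      by_contra h
      exact absurd (mem_su.1 hz τ h).2 (Nat.not_lt_zero _)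
    rw [this, map_zero]
  | succ N ih =>
    intro z hz h0
    have h1 : z - bd (li (vf F a) z) - li (vf F a) (bd z) =
        li (fun σ => Finsupp.single σ 1 - bd (vf F a σ) - li (vf F a) (bd1 F σ)) z := by
      have h2 : LinearMap.id - bd.comp (li (vf F a)) - (li (vf F a)).comp bd =
          li (fun σ => Finsupp.single σ 1 - bd (vf F a σ) - li (vf F a) (bd1 F σ)) := by
        refine Finsupp.lhom_ext fun σ x => ?_
        rw [LinearMap.sub_apply, LinearMap.sub_apply, LinearMap.id_apply, LinearMap.comp_apply,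
          LinearMap.comp_apply, li_single, li_single, bd_single, map_smul, map_smul, smul_sub,
          smul_sub, Finsupp.smul_single, smul_eq_mul, mul_one]
      exact LinearMap.congr_fun h2 z
    have h3 : z - bd (li (vf F a) z) ∈ su F (fun τ => Bx a b k τ ∧ rk a τ < N) := by
      have h4 : z - bd (li (vf F a) z) = z - bd (li (vf F a) z) - li (vf F a) (bd z) := by
        rw [h0, map_zero, sub_zero]
      rw [h4, h1]
      refine li_mem (fun τ hτ => ?_) hz
      exact su_mono (fun ρ hρ => ⟨hρ.1, by have := hτ.2; have := hρ.2; omega⟩)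
        (vf_defect hab hτ.1)
    have h5 : bd (z - bd (li (vf F a) z)) = 0 := by
      rw [map_sub, h0, zero_sub, neg_eq_zero]
      have h6 : li (vf F a) z ∈ su F (Simp : Finset (ι → ℤ) → Prop) :=
        li_mem (fun τ hτ => su_mono (fun ρ hρ => hρ.1) (vf_mem hab hτ.1)) hz
      have h7 : bd (bd (li (vf F a) z)) = li (fun σ => bd (bd1 F σ)) (li (vf F a) z) := by
        have h8 : bd.comp bd = li (fun σ : Finset (ι → ℤ) => bd (bd1 F σ)) := by
          refine Finsupp.lhom_ext fun σ x => ?_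
          rw [LinearMap.comp_apply, li_single, bd_single, map_smul]
        exact LinearMap.congr_fun h8 _
      rw [h7]
      have h9 : li (fun σ => bd (bd1 F σ)) (li (vf F a) z) ∈ (⊥ : Submodule F (Ch ι F)) :=
        li_mem (fun τ hτ => by rw [bd_bd1 hτ]; exact Submodule.zero_mem _) h6
      exact (Submodule.mem_bot F).1 h9
    obtain ⟨w, hw, hw'⟩ := ih _ h3 h5
    refine ⟨w + li (vf F a) z, Submodule.add_mem _ hw (li_mem (fun τ hτ => vf_mem hab hτ.1) hz), ?_⟩
    rw [map_add, hw', sub_add_cancel]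

/-- A box is acyclic. -/
theorem box_acyclic {a b : ι → ℤ} (hab : a ≤ b) {k : ℕ} {z : Ch ι F} (hz : z ∈ su F (Bx a b k))
    (h0 : bd z = 0) : ∃ w ∈ su F (Bx a b (k + 1)), bd w = z := by
  refine box_acyclic_aux hab k (z.support.sup (rk a) + 1) z ?_ h0
  rw [mem_su] at hz ⊢
  exact fun τ hτ => ⟨hz τ hτ, Nat.lt_succ_of_le
    (Finset.le_sup (f := rk a) (Finsupp.mem_support_iff.2 hτ))⟩

end Pool.Agent.H52.FU
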